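import Pool.Agent.Helper473.GH.Bridge

/-!
# A `C`-cycle that is not locally a superposition of pseudoholomorphic curves

On `M = ℂ²` with the foliation with one leaf and `J = i` there is a `C`-cycle `c` (the current
`dd^c max(Re z, Re w, 0)`, up to a constant) and a point `x` (the origin) such that on no
neighbourhood `U` of `x` is `c` a non-negative superposition of pseudoholomorphic curves of `U`.
-/

set_option autoImplicit false

open TopologicalSpace

namespace Pool.Agent.Results.MP_03adb9_gt.CycleNoCurves

open Pool.Agent.Helper473.GHP

theorem result : ∃ c : Current M 2, c ∈ CCurrent ∧ IsCycle c ∧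
    ∃ x : E, ∀ U : Opens E, x ∈ U → ¬ IsSuperposition U c :=
  Pool.Agent.Helper473.GHB.main

end Pool.Agent.Results.MP_03adb9_gt.CycleNoCurves
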